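import Pool.Agent.Q103.KO.Stm2
import Pool.Agent.Q92.GT.H7

/-!
# Project KO (helper103), job F3: nondegeneracy at the generic point

Adapted from `Pool/Agent/Q92/GT/H7.lean` (helper92).
-/

set_option autoImplicit false

namespace Pool.Agent.Q151.KO

open Finset Polynomial FF Metric
open Pool.Agent.W602.GT
open Pool.Agent.Q41.SU
open Pool.Agent.Q41.GT
open Pool.Agent.Q103.EC
open Pool.Agent.Q103.KO
open Pool.Agent.Q92.GT (der_expand map_wro wro_hom)

/-- from the span to a combination -/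
theorem of_span {K : Type} [Field K] {w M₀ : ℕ} {ι : Type} [Fintype ι] [DecidableEq ι]
    (Q : ι → MvPolynomial (Fin w) K) (f : MvPolynomial (Fin w) K)
    (hf : f ∈ Submodule.span K {g | ∃ (i : Fin 1 → ι) (γ : Fin w →₀ ℕ), (∑ s, γ s) = M₀ ∧
        g = (∏ s, Q (i s)) * MvPolynomial.monomial γ 1}) :
    ∃ g : ι → MvPolynomial (Fin w) K, (∀ x, (g x).IsHomogeneous M₀) ∧ f = ∑ x, Q x * g x := by
  induction hf using Submodule.span_induction with
  | mem f hf =>
    obtain ⟨i, γ, hγ, rfl⟩ := hf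
    refine ⟨fun x => if x = i 0 then MvPolynomial.monomial γ 1 else 0, fun x => ?_, ?_⟩
    · simp only
      split_ifs
      · refine MvPolynomial.isHomogeneous_monomial _ ?_
        rw [← hγ]
        exact Finsupp.degree_eq_sum γ
      · exact MvPolynomial.isHomogeneous_zero _ _ _
    · rw [Finset.sum_eq_single (i 0)]
      · simp
      · intro x _ hx
        beta_reduce
        rw [if_neg hx, mul_zero]
      · intro h
        exact absurd (Finset.mem_univ _) h
  | zero =>
    exact ⟨fun _ => 0, fun _ => MvPolynomial.isHomogeneous_zero _ _ _, by simp⟩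
  | add f f' _ _ h h' =>
    obtain ⟨g, hg, e⟩ := h
    obtain ⟨g', hg', e'⟩ := h'
    refine ⟨fun x => g x + g' x, fun x => (hg x).add (hg' x), ?_⟩
    rw [e, e', ← Finset.sum_add_distrib]
    exact Finset.sum_congr rfl fun x _ => (mul_add _ _ _).symm
  | smul c f _ h =>
    obtain ⟨g, hg, e⟩ := h
    refine ⟨fun x => c • g x, fun x => ?_, ?_⟩
    · have h1 := (MvPolynomial.isHomogeneous_C (Fin w) c).mul (hg x)
      rw [zero_add] at h1
      beta_reduce
      rw [MvPolynomial.smul_eq_C_mul]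
      exact h1
    · rw [e, Finset.smul_sum]
      exact Finset.sum_congr rfl fun x _ => (mul_smul_comm _ _ _).symm

/-- JOB KO-F3 -/
theorem gen (hN : S_ndw) (hC : S_crs) (hR : S_red.{0}) (hK : S_nul) : S_gen := by
  classical
  intro d a b φ hd hφ hcst
  obtain ⟨N₀, hN₀⟩ := hN d a b φ hd hφ
  obtain ⟨N'', hN''⟩ := hR d (max N₀ (3 * d + 4)) (by omega)
  refine ⟨N'', ?_⟩
  intro k K _ _ _ _ p q hp hq hpq P hP hcard halg
  obtain ⟨P', hP'P, hP', hcard', hsur⟩ := hN'' K p q hp hq hpq P hP hcard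
  have halg' := hC k K d p q hd hp hq hpq P P' hP'P hP hP'
    ((le_max_right _ _).trans hcard') halg
  refine ⟨P', hP'P, hP', fun w t ht δ hδ0 => ?_⟩
  have hδ : (Matrix.of fun i j => δ i (t j)) = 1 := by
    ext i j
    rw [Matrix.of_apply, hδ0, Matrix.one_apply]
  let ι : Type := {x : II a b → K // x ∈ Fintype.piFinset fun _ : II a b => P'}
  obtain ⟨Y, hY⟩ : ∃ Y : (II a b → K) → II a b → MvPolynomial (Fin w) K, Y = fun x l =>
      ∑ j, MvPolynomial.C (δ j (x l)) * MvPolynomial.X j := ⟨_, rfl⟩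
  obtain ⟨Q, hQ⟩ : ∃ Q : ι → MvPolynomial (Fin w) K, Q = fun x =>
      wro φ (fun l => MvPolynomial.C (x.1 l)) (Y x.1) := ⟨_, rfl⟩
  obtain ⟨M₀, hM₀⟩ := hK K w (cst φ) hcst ι Q (fun x => by
    rw [hQ]
    refine wro_hom φ x.1 (Y x.1) (fun l => ?_)
    rw [hY]
    refine MvPolynomial.IsHomogeneous.sum _ _ _ fun j _ => ?_
    have h3 := (MvPolynomial.isHomogeneous_C (Fin w) (δ j (x.1 l))).mul
      (MvPolynomial.isHomogeneous_X K j)
    rwa [zero_add] at h3) (fun lam hlam => by
    have htE : IsTranscendenceBasis k (algebraMap K (AlgebraicClosure K) ∘ t) :=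
      ht.algebraMap_comp
    obtain ⟨D, hD⟩ := exists_der (algebraMap K (AlgebraicClosure K) ∘ t) htE lam
    have hD' : ∀ j, D (algebraMap K (AlgebraicClosure K) (t j)) = lam j := hD
    obtain ⟨j₀, hj₀⟩ := Function.ne_iff.1 hlam
    obtain ⟨x, hx1, hx2, hx3⟩ := hN₀ k K (AlgebraicClosure K) p q hp hq hpq P' hP' hsur
      ((le_max_left _ _).trans hcard') halg' D ⟨t j₀, by rw [hD']; exact hj₀⟩
    refine ⟨⟨x, Fintype.mem_piFinset.2 hx2⟩, ?_⟩
    rw [hQ]
    have h1 := map_wro ((MvPolynomial.aeval lam :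
      MvPolynomial (Fin w) K →ₐ[K] AlgebraicClosure K) :
      MvPolynomial (Fin w) K →+* AlgebraicClosure K) φ (fun l => MvPolynomial.C (x l)) (Y x)
    have h2 : (fun l => ((MvPolynomial.aeval lam :
      MvPolynomial (Fin w) K →ₐ[K] AlgebraicClosure K) :
      MvPolynomial (Fin w) K →+* AlgebraicClosure K) (MvPolynomial.C (x l))) =
        fun l => algebraMap K (AlgebraicClosure K) (x l) := by
      funext l
      exact MvPolynomial.aeval_C _ _
    have h3 : (fun l => ((MvPolynomial.aeval lam :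
      MvPolynomial (Fin w) K →ₐ[K] AlgebraicClosure K) :
      MvPolynomial (Fin w) K →+* AlgebraicClosure K) (Y x l)) =
        fun l => D (algebraMap K (AlgebraicClosure K) (x l)) := by
      funext l
      rw [der_expand ht hδ D (x l), hY]
      show MvPolynomial.aeval lam (∑ j, MvPolynomial.C (δ j (x l)) * MvPolynomial.X j) = _
      rw [map_sum]
      refine Finset.sum_congr rfl fun j _ => ?_
      rw [map_mul, MvPolynomial.aeval_C, MvPolynomial.aeval_X, hD', mul_comm]
    rw [h2, h3] at h1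
    intro h0
    apply hx3
    rw [← h1]
    exact h0)
  refine ⟨M₀, fun j₀ => ?_⟩
  have h1 := hM₀ 1 ((MvPolynomial.X j₀ : MvPolynomial (Fin w) K) ^ (M₀ + cst φ)) (by
    have h2 := (MvPolynomial.isHomogeneous_X K j₀).pow (M₀ + cst φ)
    rw [one_mul] at h2 ⊢
    exact h2)
  obtain ⟨g, hg1, hg2⟩ := of_span Q _ h1
  refine ⟨fun x => if h : x ∈ Fintype.piFinset (fun _ : II a b => P') then g ⟨x, h⟩ else 0,
    fun x => ?_, ?_⟩
  · beta_reduce
    split_ifs
    · exact hg1 _
    · exact MvPolynomial.isHomogeneous_zero _ _ _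
  · rw [hg2]
    rw [← Finset.sum_coe_sort (Fintype.piFinset fun _ : II a b => P')]
    refine Finset.sum_congr rfl fun x _ => ?_
    beta_reduce
    rw [dif_pos x.2, hQ, hY]

end Pool.Agent.Q151.KO
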