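import Pool.Agent.Q151.KO.Path
import Pool.Agent.Q103.KO.Stm2

/-!
# Project KO (helper103), job F5: from derivatives to the Kobayashi distance
-/

set_option autoImplicit false

namespace Pool.Agent.Q151.KO

open Metric Set
open Pool.Agent.Q103.KO
open Pool.Agent.Q103.EC

lemma poin_symm (a b : ℂ) : poin a b = poin b a := by
  have h : ‖(a - b) / (1 - (starRingEnd ℂ) b * a)‖ = ‖(b - a) / (1 - (starRingEnd ℂ) a * b)‖ := by
    rw [norm_div, norm_div, norm_sub_rev a b]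
    congr 1
    rw [← RCLike.norm_conj (1 - (starRingEnd ℂ) a * b)]
    rw [map_sub, map_one, map_mul, Complex.conj_conj, mul_comm a]
  unfold poin
  rw [h]

lemma poin_mob (s t : ℂ) : poin s t =
    1 / 2 * Real.log ((1 + ‖mob (-s) t‖) / (1 - ‖mob (-s) t‖)) := by
  rw [poin_symm]
  unfold poin mob
  rw [map_neg, ← sub_eq_add_neg, neg_mul, ← sub_eq_add_neg]

lemma poin_nonneg {s t : ℂ} (hs : s ∈ ball (0 : ℂ) 1) (ht : t ∈ ball (0 : ℂ) 1) : 0 ≤ poin s t := by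
  rw [mem_ball_zero_iff] at hs ht
  rw [poin_mob]
  have h1 := (mob_inv hs ht).1
  have h2 := norm_nonneg (mob (-s) t)
  refine mul_nonneg (by norm_num) (Real.log_nonneg ?_)
  rw [le_div_iff₀ (by linarith)]
  linarith

variable {M : ℕ} {L : Type} [Field L] [Algebra ℂ L] {x : Fin (M + 1) → L}

lemma disc_comp {g : ℂ → Fin (M + 1) → ℂ} (hg : Disc x g) {s : ℂ} (hs : ‖s‖ < 1) :
    Disc x (fun z => g (mob s z)) := by
  have hmaps : ∀ z ∈ ball (0 : ℂ) 1, mob s z ∈ ball (0 : ℂ) 1 := by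
    intro z hz
    rw [mem_ball_zero_iff] at hz ⊢
    exact mob_lt hs hz
  refine Disc.mk (fun i => ?_) (fun t ht => hg.ne _ (hmaps t ht))
    (fun G hG hG0 t ht => hg.mem G hG hG0 _ (hmaps t ht))
  refine (hg.hol i).comp (t := ball (0 : ℂ) 1) (f := mob s) (fun z hz => ?_) hmaps
  rw [mem_ball_zero_iff] at hz
  exact (mob_deriv hs hz).differentiableAt.differentiableWithinAt

/-- the derivative bound at any point of a disc -/
lemma der_at {i₁ : Fin (M + 1)} {a : Fin (M + 1) → ℂ} {r C : ℝ}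
    (hD : ∀ g, Disc x g → g 0 i₁ ≠ 0 → (∀ i, ‖g 0 i / g 0 i₁ - a i / a i₁‖ < r) →
      ∀ i, ‖deriv (fun t => g t i / g t i₁) 0‖ ≤ C)
    {g : ℂ → Fin (M + 1) → ℂ} (hg : Disc x g) (w : ℂ) (hw : w ∈ ball (0 : ℂ) 1)
    (h0 : g w i₁ ≠ 0) (h1 : ∀ i, ‖g w i / g w i₁ - a i / a i₁‖ < r) (i : Fin (M + 1)) :
    ‖deriv (fun t => g t i / g t i₁) w‖ ≤ C / (1 - ‖w‖ ^ 2) := by
  have hw' : ‖w‖ < 1 := by rwa [mem_ball_zero_iff] at hw
  have h2 := hD (fun z => g (mob w z)) (disc_comp hg hw') (by simp only [mob_zero]; exact h0)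
    (by simp only [mob_zero]; exact h1) i
  have h3 := mob_deriv hw' (z := 0) (by simp)
  have h4 : HasDerivAt (fun t => g t i / g t i₁) (deriv (fun t => g t i / g t i₁) (mob w 0))
      (mob w 0) := by
    rw [mob_zero]
    have d1 := (hg.hol i).differentiableAt (isOpen_ball.mem_nhds hw)
    have d2 := (hg.hol i₁).differentiableAt (isOpen_ball.mem_nhds hw)
    exact (d1.div d2 h0).hasDerivAt
  have h5 := (h4.comp (0 : ℂ) h3).deriv
  have h6 : ((fun t => g t i / g t i₁) ∘ mob w) = fun z => g (mob w z) i / g (mob w z) i₁ := rfl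
  rw [h6, mob_zero, mul_zero, add_zero, one_pow, div_one] at h5
  rw [h5, norm_mul, Complex.norm_real, Real.norm_of_nonneg (one_sub_sq_pos hw').le] at h2
  rw [le_div_iff₀ (one_sub_sq_pos hw')]
  exact h2

/-- one disc -/
lemma one_disc {i₁ : Fin (M + 1)} {a : Fin (M + 1) → ℂ} {r C : ℝ} (hC : 0 < C)
    (hD : ∀ g, Disc x g → g 0 i₁ ≠ 0 → (∀ i, ‖g 0 i / g 0 i₁ - a i / a i₁‖ < r) →
      ∀ i, ‖deriv (fun t => g t i / g t i₁) 0‖ ≤ C)
    {g : ℂ → Fin (M + 1) → ℂ} (hg : Disc x g) {s t : ℂ} (hs : s ∈ ball (0 : ℂ) 1)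
    (ht : t ∈ ball (0 : ℂ) 1) (h0 : g s i₁ ≠ 0) {η : ℝ} (hη : 0 ≤ η)
    (h1 : ∀ i, ‖g s i / g s i₁ - a i / a i₁‖ ≤ η) (hr : η + C * poin s t < r) :
    g t i₁ ≠ 0 ∧ ∀ i, ‖g t i / g t i₁ - a i / a i₁‖ ≤ η + C * poin s t := by
  have hs' : ‖s‖ < 1 := by rwa [mem_ball_zero_iff] at hs
  have ht' : ‖t‖ < 1 := by rwa [mem_ball_zero_iff] at ht
  obtain ⟨hm1, hm2⟩ := mob_inv hs' ht'
  have hg' := disc_comp hg hs'
  have h2 := path i₁ (fun z => g (mob s z)) hg'.hol hg'.ne (fun i => a i / a i₁) r C η hC hη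
    (fun w hw hw0 hw1 i => der_at hD hg' w hw hw0 hw1 i) (mob (-s) t) hm1
    (by simp only [mob_zero]; exact h0) (by simp only [mob_zero]; exact h1)
    (by rw [← poin_mob]; exact hr)
  rw [← poin_mob] at h2
  simp only [hm2] at h2
  exact h2

lemma same_rfl {a : Fin (M + 1) → ℂ} : SameP a a := ⟨1, one_ne_zero, (one_smul _ _).symm⟩

lemma same_symm {a b : Fin (M + 1) → ℂ} (h : SameP a b) : SameP b a := by
  obtain ⟨c, hc, rfl⟩ := h
  exact ⟨c⁻¹, inv_ne_zero hc, by rw [smul_smul, inv_mul_cancel₀ hc, one_smul]⟩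

lemma same_trans {a b c : Fin (M + 1) → ℂ} (h : SameP a b) (h' : SameP b c) : SameP a c := by
  obtain ⟨u, hu, rfl⟩ := h
  obtain ⟨v, hv, rfl⟩ := h'
  exact ⟨v * u, mul_ne_zero hv hu, by rw [smul_smul]⟩

lemma same_coord {a b : Fin (M + 1) → ℂ} (h : SameP a b) (i₁ : Fin (M + 1)) (ha : a i₁ ≠ 0) :
    b i₁ ≠ 0 ∧ ∀ i, b i / b i₁ = a i / a i₁ := by
  obtain ⟨c, hc, rfl⟩ := h
  refine ⟨mul_ne_zero hc ha, fun i => ?_⟩
  simp only [Pi.smul_apply, smul_eq_mul]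
  exact mul_div_mul_left _ _ hc

lemma chain_nonneg {a b : Fin (M + 1) → ℂ} {l : ℝ} (h : Chain x a b l) : 0 ≤ l := by
  induction h with
  | nil _ _ _ => exact le_rfl
  | cons _ _ _ s t _ _ hs ht _ _ ih => exact add_nonneg (poin_nonneg hs ht) ih

lemma chain_head {a a' b : Fin (M + 1) → ℂ} {l : ℝ} (h : SameP a a') (h' : Chain x a' b l) :
    Chain x a b l := by
  cases h' with
  | nil _ _ h2 => exact Chain.nil _ _ (same_trans h h2)
  | cons _ _ g s t l hg hs ht h2 h3 => exact Chain.cons _ _ g s t l hg hs ht (same_trans h h2) h3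

lemma chain_trans {a b c : Fin (M + 1) → ℂ} {l l' : ℝ} (h : Chain x a b l) (h' : Chain x b c l') :
    Chain x a c (l + l') := by
  induction h with
  | nil _ _ h2 => rw [zero_add]; exact chain_head h2 h'
  | cons _ _ g s t l hg hs ht h2 _ ih =>
    rw [add_assoc]
    exact Chain.cons _ _ g s t _ hg hs ht h2 (ih h')

lemma chain_symm {a b : Fin (M + 1) → ℂ} {l : ℝ} (h : Chain x a b l) : Chain x b a l := by
  induction h with
  | nil _ _ h2 => exact Chain.nil _ _ (same_symm h2)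
  | cons a b g s t l hg hs ht h2 _ ih =>
    have h3 : Chain x (g t) a (poin t s + 0) :=
      Chain.cons _ _ g t s 0 hg ht hs same_rfl (Chain.nil _ _ (same_symm h2))
    have h4 := chain_trans ih h3
    rw [add_zero, poin_symm, add_comm] at h4
    exact h4

/-- the chain lemma -/
lemma chain_bound {i₁ : Fin (M + 1)} {a : Fin (M + 1) → ℂ} {r C : ℝ} (hC : 0 < C)
    (hD : ∀ g, Disc x g → g 0 i₁ ≠ 0 → (∀ i, ‖g 0 i / g 0 i₁ - a i / a i₁‖ < r) →
      ∀ i, ‖deriv (fun t => g t i / g t i₁) 0‖ ≤ C)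
    {b c : Fin (M + 1) → ℂ} {l : ℝ} (h : Chain x b c l) : ∀ η : ℝ, 0 ≤ η → b i₁ ≠ 0 →
    (∀ i, ‖b i / b i₁ - a i / a i₁‖ ≤ η) → η + C * l < r →
    c i₁ ≠ 0 ∧ ∀ i, ‖c i / c i₁ - a i / a i₁‖ ≤ η + C * l := by
  induction h with
  | nil b c h2 =>
    intro η hη hb h1 hr
    obtain ⟨h3, h4⟩ := same_coord h2 i₁ hb
    refine ⟨h3, fun i => ?_⟩
    rw [h4, mul_zero, add_zero]
    exact h1 i
  | cons b c g s t l hg hs ht h2 h3 ih =>
    intro η hη hb h1 hr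
    have hl := chain_nonneg h3
    have hp := poin_nonneg hs ht
    have hCl : 0 ≤ C * l := mul_nonneg hC.le hl
    have hCp : 0 ≤ C * poin s t := mul_nonneg hC.le hp
    rw [mul_add] at hr
    obtain ⟨h4, h5⟩ := same_coord h2 i₁ hb
    obtain ⟨h6, h7⟩ := one_disc hC hD hg hs ht h4 hη (fun i => by rw [h5]; exact h1 i) (by linarith)
    obtain ⟨h8, h9⟩ := ih (η + C * poin s t) (by linarith) h6 h7 (by linarith)
    refine ⟨h8, fun i => ?_⟩
    rw [mul_add, ← add_assoc]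
    exact h9 i

/-- a positive lower bound if the first point is off the closed subset -/
lemma kob_one {i₁ : Fin (M + 1)} {a b : Fin (M + 1) → ℂ} {r C : ℝ} (hr : 0 < r) (hC : 0 < C)
    (hD : ∀ g, Disc x g → g 0 i₁ ≠ 0 → (∀ i, ‖g 0 i / g 0 i₁ - a i / a i₁‖ < r) →
      ∀ i, ‖deriv (fun t => g t i / g t i₁) 0‖ ≤ C) (ha : a i₁ ≠ 0) (hab : ¬ SameP a b) :
    ∃ ε : ℝ, 0 < ε ∧ ∀ l : ℝ, Chain x a b l → ε ≤ l := by
  obtain ⟨ρ, hρ, hρr, hρb⟩ : ∃ ρ : ℝ, 0 < ρ ∧ ρ ≤ r ∧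
      (b i₁ = 0 ∨ ∃ i, ρ ≤ ‖b i / b i₁ - a i / a i₁‖) := by
    by_cases hb : b i₁ = 0
    · exact ⟨r, hr, le_rfl, Or.inl hb⟩
    · by_cases h : ∀ i, b i / b i₁ = a i / a i₁
      · exfalso
        apply hab
        refine ⟨b i₁ / a i₁, div_ne_zero hb ha, ?_⟩
        funext i
        have h1 := h i
        rw [div_eq_div_iff hb ha] at h1
        simp only [Pi.smul_apply, smul_eq_mul]
        field_simp
        linear_combination h1
      · push Not at h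
        obtain ⟨i, hi⟩ := h
        have hpos : 0 < ‖b i / b i₁ - a i / a i₁‖ := norm_pos_iff.2 (sub_ne_zero.2 hi)
        exact ⟨min r ‖b i / b i₁ - a i / a i₁‖, lt_min hr hpos, min_le_left _ _,
          Or.inr ⟨i, min_le_right _ _⟩⟩
  refine ⟨ρ / (2 * C), by positivity, fun l hl => ?_⟩
  by_contra hc
  push Not at hc
  rw [lt_div_iff₀ (by positivity)] at hc
  have h1 : C * l < ρ := by nlinarith
  obtain ⟨h2, h3⟩ := chain_bound hC hD hl 0 le_rfl ha (fun i => by simp) (by linarith)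
  rcases hρb with h4 | ⟨i, hi⟩
  · exact h2 h4
  · have := h3 i
    linarith

/-- JOB KO-F5 -/
theorem kob : S_kob := by
  intro K _ _ M x ⟨i₁, R, hR, hR0, hRi, h⟩
  refine ⟨R, hR, hR0, fun a b ha hb hab hor => ?_⟩
  rcases hor with h1 | h1
  · obtain ⟨r, C, hr, hC, hD⟩ := h a ha h1
    exact kob_one hr hC hD (hRi a h1) hab
  · obtain ⟨r, C, hr, hC, hD⟩ := h b hb h1
    obtain ⟨ε, hε, h2⟩ := kob_one (b := a) hr hC hD (hRi b h1) fun h3 => hab (same_symm h3)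
    exact ⟨ε, hε, fun l hl => h2 l (chain_symm hl)⟩

end Pool.Agent.Q151.KO
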