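import Pool.Agent.Y221.AP.Inf

/-!
# Project KO (helper103), job E5, part 1: bounds for the roots of monic polynomials whose coefficients
are polynomials in bounded quantities
-/

set_option autoImplicit false

namespace Pool.Agent.Q151.KO

open Finset Polynomial

/-- the evaluation of a polynomial with rational coefficients -/
noncomputable def evQ {σ : Type} (l : σ → ℂ) : MvPolynomial σ ℚ →+* ℂ :=
  MvPolynomial.eval₂Hom (algebraMap ℚ ℂ) l

theorem evQ_bd {σ : Type} (P : MvPolynomial σ ℚ) : ∃ (C : ℝ) (A : ℕ), 0 ≤ C ∧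
    ∀ (l : σ → ℂ) (T : ℝ), 1 ≤ T → (∀ i, ‖l i‖ ≤ T) → ‖evQ l P‖ ≤ C * T ^ A := by
  induction P using MvPolynomial.induction_on with
  | C a =>
    refine ⟨‖algebraMap ℚ ℂ a‖, 0, norm_nonneg _, fun l T _ _ => ?_⟩
    rw [evQ, MvPolynomial.coe_eval₂Hom, MvPolynomial.eval₂_C, pow_zero, mul_one]
  | add p q hp hq =>
    obtain ⟨C, A, hC, h⟩ := hp
    obtain ⟨C', A', hC', h'⟩ := hq
    refine ⟨C + C', A + A', add_nonneg hC hC', fun l T hT hl => ?_⟩
    rw [map_add]
    refine (norm_add_le _ _).trans ?_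
    rw [add_mul]
    refine add_le_add ((h l T hT hl).trans ?_) ((h' l T hT hl).trans ?_)
    · exact mul_le_mul_of_nonneg_left (pow_le_pow_right₀ hT (by omega)) hC
    · exact mul_le_mul_of_nonneg_left (pow_le_pow_right₀ hT (by omega)) hC'
  | mul_X p j hp =>
    obtain ⟨C, A, hC, h⟩ := hp
    refine ⟨C, A + 1, hC, fun l T hT hl => ?_⟩
    rw [map_mul, norm_mul, pow_succ, ← mul_assoc]
    have hX : evQ l (MvPolynomial.X j) = l j := by
      rw [evQ, MvPolynomial.coe_eval₂Hom, MvPolynomial.eval₂_X]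
    rw [hX]
    exact mul_le_mul (h l T hT hl) (hl j) (norm_nonneg _)
      (mul_nonneg hC (pow_nonneg (by linarith) _))

theorem root_one {σ : Type} (e : Polynomial (MvPolynomial σ ℚ)) (he : e.Monic) :
    ∃ (C : ℝ) (A : ℕ), 0 ≤ C ∧ ∀ (l : σ → ℂ) (T : ℝ) (y : ℂ), 1 ≤ T → (∀ i, ‖l i‖ ≤ T) →
      Polynomial.eval₂ (evQ l) y e = 0 → ‖y‖ ≤ C * T ^ A := by
  choose C A hC h using fun k : ℕ => evQ_bd (e.coeff k)
  refine ⟨1 + ∑ k ∈ range e.natDegree, C k, ∑ k ∈ range e.natDegree, A k,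
    add_nonneg zero_le_one (sum_nonneg fun _ _ => hC _), fun l T y hT hl h0 => ?_⟩
  rw [Polynomial.eval₂_eq_sum_range, Finset.sum_range_succ, he.coeff_natDegree, map_one,
    one_mul] at h0
  have h1 := Pool.Agent.Y221.AP.root_bd h0
  refine h1.trans ?_
  have h2 : (1 : ℝ) ≤ T ^ (∑ k ∈ range e.natDegree, A k) := one_le_pow₀ hT
  rw [add_mul, one_mul, Finset.sum_mul]
  refine add_le_add h2 (sum_le_sum fun k hk => (h k l T hT hl).trans ?_)
  refine mul_le_mul_of_nonneg_left (pow_le_pow_right₀ hT ?_) (hC k)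
  exact Finset.single_le_sum (f := A) (fun _ _ => Nat.zero_le _) hk

theorem root_fin {σ : Type} (ee : Finset (Polynomial (MvPolynomial σ ℚ)))
    (he : ∀ e ∈ ee, e.Monic) :
    ∃ (C : ℝ) (A : ℕ), 0 ≤ C ∧ ∀ (l : σ → ℂ) (T : ℝ) (y : ℂ), 1 ≤ T → (∀ i, ‖l i‖ ≤ T) →
      (∃ e ∈ ee, Polynomial.eval₂ (evQ l) y e = 0) → ‖y‖ ≤ C * T ^ A := by
  classical
  induction ee using Finset.induction_on with
  | empty => exact ⟨0, 0, le_rfl, fun l T y _ _ ⟨e, he, _⟩ => absurd he (Finset.notMem_empty e)⟩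
  | insert e ee _ ih =>
    obtain ⟨C, A, hC, h⟩ := ih fun e' h' => he e' (mem_insert_of_mem h')
    obtain ⟨C', A', hC', h'⟩ := root_one e (he e (mem_insert_self _ _))
    refine ⟨C + C', A + A', add_nonneg hC hC', fun l T y hT hl ⟨e', he', h0⟩ => ?_⟩
    have hT0 : 0 ≤ T := by linarith
    rw [add_mul]
    rcases mem_insert.1 he' with h1 | h1
    · subst h1
      refine (h' l T y hT hl h0).trans ?_
      have h2 : C' * T ^ A' ≤ C' * T ^ (A + A') :=
        mul_le_mul_of_nonneg_left (pow_le_pow_right₀ hT (by omega)) hC'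
      have h3 : 0 ≤ C * T ^ (A + A') := mul_nonneg hC (pow_nonneg hT0 _)
      linarith
    · refine (h l T y hT hl ⟨e', h1, h0⟩).trans ?_
      have h2 : C * T ^ A ≤ C * T ^ (A + A') :=
        mul_le_mul_of_nonneg_left (pow_le_pow_right₀ hT (by omega)) hC
      have h3 : 0 ≤ C' * T ^ (A + A') := mul_nonneg hC' (pow_nonneg hT0 _)
      linarith

end Pool.Agent.Q151.KO
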