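import Pool.Agent.Q103.KO.Stm1
import Pool.Agent.Q38.EC.Mer
import Pool.Agent.Q151.KO.Bd

/-!
# Project KO (helper103), job E5: a Landau theorem for maps over the field of the meromorphic functions
on a disc
-/

set_option autoImplicit false

namespace Pool.Agent.Q151.KO

open Finset Polynomial FF Metric
open Pool.Agent.W602.GT
open Pool.Agent.Q41.SU
open Pool.Agent.Q41.GT
open Pool.Agent.Q103.EC
open Pool.Agent.Q103.KO
open Pool.Agent.W602.NC (sup)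
open Pool.Agent.TH152.HY (Calm)

/-- evaluation of an algebraic relation -/
theorem ev_rel {σ : Type} {z : ℂ} (hz : z ∈ Dm) (l : σ → DK) (hl : ∀ i, Pool.Agent.Q103.KO.Reg (l i) z)
    (X : DK) (hX : Pool.Agent.Q103.KO.Reg X z) (e : Polynomial (MvPolynomial σ ℚ))
    (h : Polynomial.eval₂ ((MvPolynomial.aeval l : MvPolynomial σ ℚ →ₐ[ℚ] DK) :
      MvPolynomial σ ℚ →+* DK) X e = 0) :
    Polynomial.eval₂ (evQ fun i => Fn (l i) z) (Fn X z) e = 0 := by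
  obtain ⟨zz, hzz⟩ : ∃ zz : Dm, (zz : ℂ) = z := ⟨⟨z, hz⟩, rfl⟩
  subst hzz
  obtain ⟨l', hl'⟩ : ∃ l' : σ → Oz zz, ∀ i, (l' i : DK) = l i := ⟨fun i => ⟨l i, hl i⟩, fun _ => rfl⟩
  obtain ⟨X', hX'⟩ : ∃ X' : Oz zz, (X' : DK) = X := ⟨⟨X, hX⟩, rfl⟩
  obtain ⟨φ, hφ⟩ : ∃ φ : MvPolynomial σ ℚ →+* Oz zz,
      φ = MvPolynomial.eval₂Hom ((algebraMap ℂ (Oz zz)).comp (algebraMap ℚ ℂ)) l' := ⟨_, rfl⟩
  have h1 : ((Oz zz).val : Oz zz →+* DK).comp φ =
      ((MvPolynomial.aeval l : MvPolynomial σ ℚ →ₐ[ℚ] DK) : MvPolynomial σ ℚ →+* DK) := by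
    apply MvPolynomial.ringHom_ext
    · intro r
      exact RingHom.congr_fun (Subsingleton.elim
        ((((Oz zz).val : Oz zz →+* DK).comp φ).comp MvPolynomial.C)
        (((MvPolynomial.aeval l : MvPolynomial σ ℚ →ₐ[ℚ] DK) : MvPolynomial σ ℚ →+* DK).comp
          MvPolynomial.C)) r
    · intro i
      rw [hφ]
      simp [hl']
  have h2 : Polynomial.eval₂ φ X' e = 0 := by
    apply Subtype.ext
    have h3 := Polynomial.hom_eval₂ e φ ((Oz zz).val : Oz zz →+* DK) X'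
    rw [h1] at h3
    refine Eq.trans h3 ?_
    change Polynomial.eval₂ _ (X' : DK) e = 0
    rw [hX']
    exact h
  have h4 := Polynomial.hom_eval₂ e φ (evO zz : Oz zz →+* ℂ) X'
  rw [h2, map_zero] at h4
  have h5 : (evO zz : Oz zz →+* ℂ).comp φ = evQ fun i => Fn (l i) zz := by
    apply MvPolynomial.ringHom_ext
    · intro r
      exact RingHom.congr_fun (Subsingleton.elim
        (((evO zz : Oz zz →+* ℂ).comp φ).comp MvPolynomial.C)
        ((evQ fun i => Fn (l i) zz).comp MvPolynomial.C)) r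
    · intro i
      rw [hφ]
      unfold evQ
      simp only [RingHom.comp_apply, MvPolynomial.coe_eval₂Hom, MvPolynomial.eval₂_X]
      change evO zz (l' i) = _
      rw [evO_apply, hl']
  rw [h5] at h4
  have h6 : ((evO zz : Oz zz →+* ℂ) X') = Fn X zz := by
    change evO zz X' = _
    rw [evO_apply, hX']
  rw [h6] at h4
  exact h4.symm

theorem Fn_one {z : ℂ} (hz : z ∈ Dm) : Fn 1 z = 1 := by
  have h := (Fn_const 1 hz).self_of_nhds
  rwa [map_one] at h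

theorem reg_one {z : ℂ} (hz : z ∈ Dm) : Pool.Agent.Q103.KO.Reg 1 z := by
  have h := reg_const 1 hz
  rwa [map_one] at h

theorem reg_lg {c : DK} {z : ℂ} (hz : z ∈ Dm) (hc : Pool.Agent.Q103.KO.Reg c z) (h0 : Fn c z ≠ 0) :
    Pool.Agent.Q103.KO.Reg (DDer c / c) z ∧ Fn (DDer c / c) z = deriv (Fn c) z / Fn c z := by
  rw [div_eq_mul_inv, DDer_apply]
  have h1 := hc.MD hz
  have h2 := hc.inv h0 hz
  refine ⟨h1.mul h2 hz, ?_⟩
  rw [(Fn_mul hz h1 h2).self_of_nhds]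
  simp only
  rw [(Fn_MD hz hc).self_of_nhds, (Fn_inv hz hc h0).self_of_nhds]
  rfl

theorem ball_sub {z : ℂ} (hz : z ∈ ball (0 : ℂ) 7) : z ∈ Dm :=
  ball_subset_ball (by norm_num) hz

/-- the elements of `lgJ` -/
theorem lgJ_cases {n : ℕ} {z : Fin n → DK} (hz : Function.Injective z) {P : Finset DK}
    (hP : ∀ i, z i ∈ P) (i : Ix n) :
    lgJ z (fun z => DDer z) i = 0 ∨ ∃ c ∈ crs P, lgJ z (fun z => DDer z) i = DDer c / c := by
  unfold lgJ
  split_ifs with h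
  · refine Pool.Agent.Q38.EC.lgs_mem DDer (P := P) ?_
    exact ⟨z i.1, hP _, z i.2.1, hP _, z i.2.2.1, hP _, z i.2.2.2, hP _, hz.ne h.1, hz.ne h.2.1,
      hz.ne h.2.2.1, hz.ne h.2.2.2, rfl⟩
  · exact Or.inl rfl

/-- the list of the cross ratios -/
theorem exists_list {n : ℕ} {z : Fin n → DK} {P : Finset DK} (hP : ∀ x, x ∈ P ↔ ∃ i, z i = x) :
    ∃ u : Fin (Fintype.card (Ix n) + 1) → DK, u 0 = 1 ∧ (∀ i, u i = 1 ∨ u i ∈ crs P) ∧
      ∀ c ∈ crs P, ∃ i, u i = c := by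
  classical
  obtain ⟨v, hv⟩ : ∃ v : Ix n → DK, v = fun i =>
    if z i.1 ≠ z i.2.1 ∧ z i.1 ≠ z i.2.2.1 ∧ z i.2.1 ≠ z i.2.2.1 ∧ z i.2.2.2 ≠ z i.2.2.1 ∧
      z i.2.2.2 ≠ z i.1 then
      ((z i.2.2.2 - z i.1) * (z i.2.1 - z i.2.2.1)) / ((z i.2.2.2 - z i.2.2.1) * (z i.2.1 - z i.1))
    else 1 := ⟨_, rfl⟩
  refine ⟨Fin.cons 1 (fun i => v ((Fintype.equivFin (Ix n)).symm i)), rfl, fun i => ?_, ?_⟩
  · refine Fin.cases (Or.inl rfl) (fun j => ?_) i
    rw [Fin.cons_succ]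
    generalize (Fintype.equivFin (Ix n)).symm j = t
    rw [hv]
    simp only
    split_ifs with h
    · exact Or.inr ⟨z t.1, (hP _).2 ⟨_, rfl⟩, z t.2.1, (hP _).2 ⟨_, rfl⟩, z t.2.2.1,
        (hP _).2 ⟨_, rfl⟩, z t.2.2.2, (hP _).2 ⟨_, rfl⟩, h.1, h.2.1, h.2.2.1, h.2.2.2.1,
        h.2.2.2.2, rfl⟩
    · exact Or.inl rfl
  · rintro c ⟨x0, h0, x1, h1, x2, h2, x, hx, h01, h02, h12, hxx2, hxx0, rfl⟩
    obtain ⟨i0, rfl⟩ := (hP _).1 h0
    obtain ⟨i1, rfl⟩ := (hP _).1 h1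
    obtain ⟨i2, rfl⟩ := (hP _).1 h2
    obtain ⟨i, rfl⟩ := (hP _).1 hx
    refine ⟨(Fintype.equivFin (Ix n) (i0, i1, i2, i)).succ, ?_⟩
    rw [Fin.cons_succ, Equiv.symm_apply_apply, hv]
    simp only
    rw [if_pos ⟨h01, h02, h12, hxx2, hxx0⟩]

/-- JOB KO-E5 -/
theorem ldk (hlan : S_lan) (hnrm : S_nrm) (huni : S_uni) : S_ldk := by
  classical
  intro d hd
  obtain ⟨a, b, φ, hb, hab, ha, hφ, hcst, hI⟩ := huni d hd
  refine ⟨a, b, φ, hb, hab, ha, hφ, hcst, fun n E₀ hE₀ => ?_⟩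
  obtain ⟨C', hC', ee, hee, hI2⟩ := hI n E₀ hE₀
  refine ⟨C', hC', fun Λ => ?_⟩
  obtain ⟨C₁, A, hC₁, hroot⟩ := root_fin ee hee
  obtain ⟨lam, hlam⟩ := hlan (Fintype.card (Ix n)) A (max Λ 0) C₁
  refine ⟨lam, fun p q hp hq hco P hP hcard α hα0 hαe hcrs x hx hxP => ?_⟩
  obtain ⟨z, hzinj, hzP⟩ : ∃ z : Fin n → DK, Function.Injective z ∧ ∀ x, x ∈ P ↔ ∃ i, z i = x := by
    have e : Fin n ≃ P := (P.equivFinOfCardEq hcard).symm
    refine ⟨fun i => (e i : DK), fun i j h => e.injective (Subtype.ext h), fun x => ?_⟩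
    constructor
    · intro hx
      refine ⟨e.symm ⟨x, hx⟩, ?_⟩
      beta_reduce
      rw [Equiv.apply_symm_apply]
    · rintro ⟨i, rfl⟩
      exact (e i).2
  have hPr : (P : Set DK) = Set.range z := by
    ext x
    rw [Finset.mem_coe, hzP, Set.mem_range]
  obtain ⟨u, hu0, hui, hsurj⟩ := exists_list hzP
  obtain ⟨Ψ, hΨ⟩ : ∃ Ψ, Ψ = PhiY φ E₀ d α p q x (fun z => DDer z) ^ C' := ⟨_, rfl⟩
  rw [← hΨ]
  obtain ⟨G, hG⟩ : ∃ G, G = Pool.Agent.Q103.EC.GG E₀ d α p q P := ⟨_, rfl⟩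
  rw [← hG]
  have hF : ∀ i, ∃ h ∈ hfs E₀ d α p q P, Ψ * G * u i = Ψ * h := by
    intro i
    rcases hui i with h | h
    · refine ⟨G, Or.inl hG, ?_⟩
      rw [h, mul_one]
    · refine ⟨u i * G, Or.inr ⟨u i, h, by rw [hG]⟩, ?_⟩
      ring
  have hrel := fun h hh => hI2 DK p q hp hq hco z hzinj P hPr hP α hα0 hαe (fun z => DDer z) x hx
    hxP h hh
  have hreg : ∀ i, ∀ w ∈ Dm, Pool.Agent.Q103.KO.Reg (Ψ * G * u i) w := by
    intro i w hw
    obtain ⟨v, hv1, hv2⟩ := exists_place w hw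
    obtain ⟨h, hh, e1⟩ := hF i
    rw [e1, ← hv1, hΨ]
    exact (hrel h hh).2 ℂ v DDer hv2 fun _ _ => rfl
  have hu1 : ∀ i, Pool.Agent.Q103.KO.Reg (u i) 0 ∧ Fn (u i) 0 ≠ 0 ∧ |Real.log ‖Fn (u i) 0‖| ≤ max Λ 0 := by
    intro i
    rcases hui i with h | h
    · rw [h, Fn_one zero_mem_Dm]
      refine ⟨reg_one zero_mem_Dm, one_ne_zero, ?_⟩
      rw [norm_one, Real.log_one, abs_zero]
      exact le_max_right _ _
    · obtain ⟨h1, h2, h3⟩ := hcrs _ h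
      exact ⟨h1, h2, h3.trans (le_max_left _ _)⟩
  obtain ⟨U, hU1, hU2, hU3, hU4, hU5⟩ := hnrm _ u hu0 fun i => ⟨(hu1 i).1, (hu1 i).2.1⟩
  obtain ⟨Q, hQ1, hQ2⟩ := hU5 (Ψ * G) hreg
  have h00 : (0 : ℂ) ∈ ball (0 : ℂ) 7 := mem_ball_self (by norm_num)
  have hmain := hlam U Q hU1 hQ1 (fun i => by
    rw [hU2]
    exact ⟨(hu1 i).2.1, (hu1 i).2.2⟩) (fun w ε B hε hε1 hB hsub hcalm => ?_)
  · have e1 := hreg 0 0 zero_mem_Dm
    have e2 := hQ2 0 0 h00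
    rw [hU2, hu0, mul_one, Fn_one zero_mem_Dm, mul_one] at e2
    rw [hu0, mul_one] at e1
    rw [← e2]
    exact ⟨e1, hmain⟩
  · -- a calm disc
    have hw : w ∈ ball (0 : ℂ) 7 := hsub (mem_closedBall_self hε.le)
    have hval : ∀ i, ∀ w' ∈ closedBall w ε, Pool.Agent.Q103.KO.Reg (u i) w' ∧ Fn (u i) w' = U i w' / U 0 w' := by
      intro i w' hw'
      have h0 := hcalm.1 0 w' hw'
      obtain ⟨h1, h2⟩ := hU4 w' (hsub hw') h0 i
      refine ⟨h1, ?_⟩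
      rw [h2]
      field_simp
    have hww := mem_closedBall_self (x := w) hε.le
    have hne : ∀ i, Fn (u i) w ≠ 0 := by
      intro i
      rw [(hval i w hww).2]
      exact div_ne_zero (hcalm.1 i w hww) (hcalm.1 0 w hww)
    have hder : ∀ i, ‖deriv (Fn (u i)) w / Fn (u i) w‖ ≤ B / ε := by
      intro i
      have h1 : DiffContOnCl ℂ (Fn (u i)) (ball w ε) := by
        apply DifferentiableOn.diffContOnCl
        rw [closure_ball _ hε.ne']
        intro w' hw'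
        exact (hval i w' hw').1.differentiableAt.differentiableWithinAt
      have h2 := Complex.norm_deriv_le_of_forall_mem_sphere_norm_le hε h1
        (C := B * ‖Fn (u i) w‖) (fun w' hw' => by
          have hw'' := sphere_subset_closedBall hw'
          rw [(hval i w' hw'').2, (hval i w hww).2]
          exact hcalm.2 0 i w' hw'')
      rw [norm_div, div_le_iff₀ (norm_pos_iff.2 (hne i))]
      refine h2.trans (le_of_eq ?_)
      ring
    have hT : 1 ≤ B / ε := by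
      rw [one_le_div hε]
      linarith
    have hl : ∀ i, Pool.Agent.Q103.KO.Reg (lgJ z (fun z => DDer z) i) w ∧
        ‖Fn (lgJ z (fun z => DDer z) i) w‖ ≤ B / ε := by
      intro i
      rcases lgJ_cases hzinj (fun i => (hzP _).2 ⟨i, rfl⟩) i with h | ⟨c, hc, h⟩
      · rw [h]
        have h1 := reg_const 0 (ball_sub hw)
        have h2 := (Fn_const 0 (ball_sub hw)).self_of_nhds
        rw [map_zero] at h1 h2
        refine ⟨h1, ?_⟩
        rw [h2]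
        simp only [norm_zero]
        linarith
      · obtain ⟨j, rfl⟩ := hsurj c hc
        rw [h]
        obtain ⟨h1, h2⟩ := reg_lg (ball_sub hw) (hval j w hww).1 (hne j)
        rw [h2]
        exact ⟨h1, hder j⟩
    have hval2 : ∀ i, ‖Q w‖ * ‖U i w‖ ≤ C₁ * (B / ε) ^ A := by
      intro i
      rw [← norm_mul, hQ2 i w hw]
      obtain ⟨h, hh, e1⟩ := hF i
      obtain ⟨e, he, h3⟩ := (hrel h hh).1
      rw [← hΨ, ← e1] at h3
      refine hroot (fun i => Fn (lgJ z (fun z => DDer z) i) w) (B / ε) _ hT (fun i => (hl i).2)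
        ⟨e, he, ?_⟩
      exact ev_rel (ball_sub hw) _ (fun i => (hl i).1) _ (hreg i w (ball_sub hw)) e h3
    obtain ⟨j, hj⟩ := Pool.Agent.W602.NC.sup_attained U w
    rw [hj]
    exact hval2 j

end Pool.Agent.Q151.KO
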