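import Mathlib

/-!
# Project KO (helper103), job F5, part 1: the path argument in one disc
-/

set_option autoImplicit false

namespace Pool.Agent.Q151.KO

open Metric Set

/-- the automorphism of the disc -/
noncomputable def mob (s z : ℂ) : ℂ := (z + s) / (1 + (starRingEnd ℂ) s * z)

lemma one_sub_sq_pos {s : ℂ} (hs : ‖s‖ < 1) : 0 < 1 - ‖s‖ ^ 2 := by
  have := norm_nonneg s
  nlinarith

lemma norm_sq_id (s z : ℂ) : ‖1 + (starRingEnd ℂ) s * z‖ ^ 2 - ‖z + s‖ ^ 2 =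
    (1 - ‖s‖ ^ 2) * (1 - ‖z‖ ^ 2) := by
  rw [← Complex.normSq_eq_norm_sq, ← Complex.normSq_eq_norm_sq, ← Complex.normSq_eq_norm_sq,
    ← Complex.normSq_eq_norm_sq]
  simp only [Complex.normSq_apply, Complex.add_re, Complex.add_im, Complex.mul_re, Complex.mul_im,
    Complex.one_re, Complex.one_im, Complex.conj_re, Complex.conj_im]
  ring

lemma den_ne {s z : ℂ} (hs : ‖s‖ < 1) (hz : ‖z‖ < 1) : 1 + (starRingEnd ℂ) s * z ≠ 0 := by
  intro h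
  have h1 : ‖(starRingEnd ℂ) s * z‖ = 1 := by
    have : (starRingEnd ℂ) s * z = -1 := by linear_combination h
    rw [this]; simp
  rw [norm_mul, RCLike.norm_conj] at h1
  have h2 := norm_nonneg s
  have h3 := norm_nonneg z
  nlinarith

lemma mob_lt {s z : ℂ} (hs : ‖s‖ < 1) (hz : ‖z‖ < 1) : ‖mob s z‖ < 1 := by
  unfold mob
  rw [norm_div]
  have h0 : 0 < ‖1 + (starRingEnd ℂ) s * z‖ := norm_pos_iff.2 (den_ne hs hz)
  rw [div_lt_one h0]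
  have h1 := norm_sq_id s z
  have h2 : 0 < (1 - ‖s‖ ^ 2) * (1 - ‖z‖ ^ 2) := mul_pos (one_sub_sq_pos hs) (one_sub_sq_pos hz)
  have h3 : ‖z + s‖ ^ 2 < ‖1 + (starRingEnd ℂ) s * z‖ ^ 2 := by linarith
  exact lt_of_pow_lt_pow_left₀ 2 h0.le h3

lemma mob_zero (s : ℂ) : mob s 0 = s := by
  unfold mob
  rw [zero_add, mul_zero, add_zero, div_one]

lemma mob_deriv {s z : ℂ} (hs : ‖s‖ < 1) (hz : ‖z‖ < 1) :
    HasDerivAt (mob s) ((1 - ‖s‖ ^ 2 : ℝ) / (1 + (starRingEnd ℂ) s * z) ^ 2 : ℂ) z := by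
  have h1 : HasDerivAt (fun z : ℂ => z + s) 1 z := (hasDerivAt_id z).add_const s
  have h2 : HasDerivAt (fun z : ℂ => 1 + (starRingEnd ℂ) s * z) ((starRingEnd ℂ) s) z := by
    have := ((hasDerivAt_id z).const_mul ((starRingEnd ℂ) s)).const_add 1
    simpa using this
  have h3 := h1.div h2 (den_ne hs hz)
  have e : (((1 - ‖s‖ ^ 2 : ℝ) : ℂ)) = 1 - (starRingEnd ℂ) s * s := by
    rw [mul_comm, Complex.mul_conj, Complex.normSq_eq_norm_sq]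
    push_cast
    ring
  rw [e]
  have h4 : HasDerivAt (mob s) _ z := h3
  refine h4.congr_deriv ?_
  congr 1
  ring

lemma mob_inv {s t : ℂ} (hs : ‖s‖ < 1) (ht : ‖t‖ < 1) :
    ‖mob (-s) t‖ < 1 ∧ mob s (mob (-s) t) = t := by
  have hs' : ‖-s‖ < 1 := by rwa [norm_neg]
  refine ⟨mob_lt hs' ht, ?_⟩
  have h1 := den_ne hs' ht
  have h2 := den_ne hs (mob_lt hs' ht)
  have h3 := one_sub_sq_pos hs
  have h4 : mob (-s) t * (1 + -(starRingEnd ℂ) s * t) = t - s := by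
    unfold mob
    rw [map_neg] at h1 ⊢
    rw [div_mul_cancel₀ _ h1]
    ring
  obtain ⟨X, hX⟩ : ∃ X, X = mob (-s) t := ⟨_, rfl⟩
  rw [← hX] at h2 h4 ⊢
  unfold mob
  rw [div_eq_iff h2]
  linear_combination h4

/-- **The path argument.** -/
theorem path {M : ℕ} (i₁ : Fin (M + 1)) (g : ℂ → Fin (M + 1) → ℂ)
    (hol : ∀ i, DifferentiableOn ℂ (fun t => g t i) (ball 0 1))
    (ne : ∀ t ∈ ball (0 : ℂ) 1, g t ≠ 0) (u : Fin (M + 1) → ℂ) (r C η : ℝ) (hC : 0 < C)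
    (hη : 0 ≤ η)
    (hder : ∀ w ∈ ball (0 : ℂ) 1, g w i₁ ≠ 0 → (∀ i, ‖g w i / g w i₁ - u i‖ < r) →
      ∀ i, ‖deriv (fun t => g t i / g t i₁) w‖ ≤ C / (1 - ‖w‖ ^ 2))
    (τ : ℂ) (hτ : ‖τ‖ < 1) (h0 : g 0 i₁ ≠ 0) (h1 : ∀ i, ‖g 0 i / g 0 i₁ - u i‖ ≤ η)
    (hr : η + C * (1 / 2 * Real.log ((1 + ‖τ‖) / (1 - ‖τ‖))) < r) :
    g τ i₁ ≠ 0 ∧ ∀ i, ‖g τ i / g τ i₁ - u i‖ ≤
      η + C * (1 / 2 * Real.log ((1 + ‖τ‖) / (1 - ‖τ‖))) := by
  have hτ0 := norm_nonneg τ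
  -- the bound
  obtain ⟨B, hB⟩ : ∃ B : ℝ → ℝ, B = fun v => η + C * (1 / 2 * (Real.log (1 + v * ‖τ‖) -
    Real.log (1 - v * ‖τ‖))) := ⟨_, rfl⟩
  have hpos : ∀ v ∈ Icc (0 : ℝ) 1, 0 < 1 - v * ‖τ‖ ∧ 0 < 1 + v * ‖τ‖ := by
    intro v hv
    have h2 : v * ‖τ‖ ≤ ‖τ‖ := by nlinarith [hv.1, hv.2]
    have h3 : 0 ≤ v * ‖τ‖ := mul_nonneg hv.1 hτ0
    exact ⟨by linarith, by linarith⟩
  have hB1 : B 1 = η + C * (1 / 2 * Real.log ((1 + ‖τ‖) / (1 - ‖τ‖))) := by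
    rw [hB]
    simp only [one_mul]
    rw [Real.log_div (by linarith) (by linarith)]
  have hB0 : B 0 = η := by rw [hB]; simp
  have hBd : ∀ v ∈ Icc (0 : ℝ) 1, HasDerivAt B (C * (‖τ‖ / (1 - (v * ‖τ‖) ^ 2))) v := by
    intro v hv
    obtain ⟨hp1, hp2⟩ := hpos v hv
    have e1 : HasDerivAt (fun v : ℝ => 1 + v * ‖τ‖) ‖τ‖ v := by
      have := ((hasDerivAt_id v).mul_const ‖τ‖).const_add 1
      simpa using this
    have e2 : HasDerivAt (fun v : ℝ => 1 - v * ‖τ‖) (-‖τ‖) v := by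
      have := ((hasDerivAt_id v).mul_const ‖τ‖).const_sub 1
      simpa using this
    have e3 := (((e1.log hp2.ne').sub (e2.log hp1.ne')).const_mul (1 / 2 : ℝ)).const_mul C
    have e4 := e3.const_add η
    have e5 : HasDerivAt B (C * (1 / 2 * (‖τ‖ / (1 + v * ‖τ‖) - -‖τ‖ / (1 - v * ‖τ‖)))) v := by
      rw [hB]; exact e4
    refine e5.congr_deriv ?_
    have h5 : 1 - (v * ‖τ‖) ^ 2 = (1 + v * ‖τ‖) * (1 - v * ‖τ‖) := by ring
    have h6 := hp1.ne'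
    have h7 := hp2.ne'
    rw [h5]
    congr 1
    rw [neg_div, sub_neg_eq_add, div_add_div _ _ h7 h6]
    rw [div_eq_mul_inv, div_eq_mul_inv]
    ring
  have hBnn : ∀ v ∈ Icc (0 : ℝ) 1, ∀ w ∈ Icc (0 : ℝ) 1, v ≤ w → B v ≤ B w := by
    intro v hv w hw hvw
    obtain ⟨hp1, hp2⟩ := hpos v hv
    obtain ⟨hq1, hq2⟩ := hpos w hw
    have e1 : Real.log (1 + v * ‖τ‖) ≤ Real.log (1 + w * ‖τ‖) :=
      Real.log_le_log hp2 (by nlinarith)
    have e2 : Real.log (1 - w * ‖τ‖) ≤ Real.log (1 - v * ‖τ‖) :=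
      Real.log_le_log hq1 (by nlinarith)
    rw [hB]
    simp only
    nlinarith
  have hBge : ∀ v ∈ Icc (0 : ℝ) 1, 0 ≤ B v := fun v hv => by
    have := hBnn 0 ⟨le_rfl, zero_le_one⟩ v hv hv.1
    rw [hB0] at this
    linarith
  have hBlt : ∀ v ∈ Icc (0 : ℝ) 1, B v < r := fun v hv =>
    lt_of_le_of_lt (hBnn v hv 1 ⟨zero_le_one, le_rfl⟩ hv.2) (by rw [hB1]; exact hr)
  have hmem : ∀ v ∈ Icc (0 : ℝ) 1, (v : ℂ) * τ ∈ ball (0 : ℂ) 1 := by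
    intro v hv
    rw [mem_ball_zero_iff, norm_mul, Complex.norm_real, Real.norm_of_nonneg hv.1]
    have := (hpos v hv).1
    linarith
  have hcg : ∀ i, ContinuousOn (fun v : ℝ => g ((v : ℂ) * τ) i) (Icc 0 1) := by
    intro i
    refine (hol i).continuousOn.comp (f := fun v : ℝ => (v : ℂ) * τ) ?_ hmem
    exact (Continuous.mul Complex.continuous_ofReal continuous_const).continuousOn
  have hcB : ContinuousOn B (Icc 0 1) := fun v hv => (hBd v hv).continuousAt.continuousWithinAt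
  obtain ⟨A, hA⟩ : ∃ A : Set ℝ, A = {v : ℝ | ∀ i, ‖g ((v : ℂ) * τ) i - u i * g ((v : ℂ) * τ) i₁‖ ≤
    B v * ‖g ((v : ℂ) * τ) i₁‖} := ⟨_, rfl⟩
  have hAne : ∀ v ∈ A ∩ Icc 0 1, g ((v : ℂ) * τ) i₁ ≠ 0 := by
    rintro v ⟨hv, hv1⟩ hz
    rw [hA] at hv
    refine ne _ (hmem v hv1) ?_
    funext i
    have := hv i
    rw [hz, mul_zero, sub_zero, norm_zero, mul_zero] at this
    exact norm_le_zero_iff.1 this
  have hAiff : ∀ v : ℝ, g ((v : ℂ) * τ) i₁ ≠ 0 →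
      (v ∈ A ↔ ∀ i, ‖g ((v : ℂ) * τ) i / g ((v : ℂ) * τ) i₁ - u i‖ ≤ B v) := by
    intro v hv
    rw [hA, mem_ofPred_eq]
    refine forall_congr' fun i => ?_
    have e : g ((v : ℂ) * τ) i - u i * g ((v : ℂ) * τ) i₁ =
        (g ((v : ℂ) * τ) i / g ((v : ℂ) * τ) i₁ - u i) * g ((v : ℂ) * τ) i₁ := by
      field_simp
    rw [e, norm_mul]
    exact mul_le_mul_iff_left₀ (norm_pos_iff.2 hv)
  have hclosed : IsClosed (A ∩ Icc (0 : ℝ) 1) := by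
    have e : A ∩ Icc (0 : ℝ) 1 = ⋂ i, {v ∈ Icc (0 : ℝ) 1 |
        ‖g ((v : ℂ) * τ) i - u i * g ((v : ℂ) * τ) i₁‖ ≤ B v * ‖g ((v : ℂ) * τ) i₁‖} := by
      ext v
      rw [hA, mem_inter_iff, mem_ofPred_eq, mem_iInter]
      constructor
      · intro h i; exact ⟨h.2, h.1 i⟩
      · intro h; exact ⟨fun i => (h i).2, (h i₁).1⟩
    rw [e]
    refine isClosed_iInter fun i => ?_
    refine isClosed_Icc.isClosed_le ?_ ?_
    · exact ((hcg i).sub (continuousOn_const.mul (hcg i₁))).norm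
    · exact hcB.mul (hcg i₁).norm
  have hzero : (0 : ℝ) ∈ A := by
    rw [hAiff 0 (by simpa using h0), hB0]
    intro i
    simpa using h1 i
  have hstep : ∀ v ∈ A ∩ Ico (0 : ℝ) 1, ∀ y ∈ Ioi v, (A ∩ Ioc v y).Nonempty := by
    rintro v₀ ⟨hv, hv1⟩ y hy
    have hvI : v₀ ∈ Icc (0 : ℝ) 1 := ⟨hv1.1, hv1.2.le⟩
    have hne := hAne v₀ ⟨hv, hvI⟩
    have hle := (hAiff v₀ hne).1 hv
    -- the set of good points near v₀
    have hdiff : ∀ w ∈ ball (0 : ℂ) 1, g w i₁ ≠ 0 → ∀ i,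
        HasDerivAt (fun t => g t i / g t i₁) (deriv (fun t => g t i / g t i₁) w) w := by
      intro w hw hwne i
      have d1 := (hol i).differentiableAt (isOpen_ball.mem_nhds hw)
      have d2 := (hol i₁).differentiableAt (isOpen_ball.mem_nhds hw)
      exact (d1.div d2 hwne).hasDerivAt
    have hw₀ := hmem v₀ hvI
    have hev1 : ∀ᶠ w in nhds ((v₀ : ℂ) * τ), g w i₁ ≠ 0 := by
      have d2 := (hol i₁).differentiableAt (isOpen_ball.mem_nhds hw₀)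
      exact d2.continuousAt.eventually_ne hne
    have hev2 : ∀ᶠ w in nhds ((v₀ : ℂ) * τ), ∀ i, ‖g w i / g w i₁ - u i‖ < r := by
      rw [Filter.eventually_all]
      intro i
      have hc : ContinuousAt (fun w => ‖g w i / g w i₁ - u i‖) ((v₀ : ℂ) * τ) :=
        ((hdiff _ hw₀ hne i).continuousAt.sub continuousAt_const).norm
      exact hc.eventually_lt continuousAt_const (lt_of_le_of_lt (hle i) (hBlt v₀ hvI))
    have hev3 : ∀ᶠ v : ℝ in nhds v₀, g ((v : ℂ) * τ) i₁ ≠ 0 ∧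
        ∀ i, ‖g ((v : ℂ) * τ) i / g ((v : ℂ) * τ) i₁ - u i‖ < r := by
      have hc : Continuous (fun v : ℝ => (v : ℂ) * τ) :=
        Complex.continuous_ofReal.mul continuous_const
      exact (hc.tendsto v₀).eventually (hev1.and hev2)
    obtain ⟨ε, hε, hball⟩ := Metric.eventually_nhds_iff.1 hev3
    obtain ⟨v₁, hv₁⟩ : ∃ v₁, v₁ = min (min y 1) (v₀ + ε / 2) := ⟨_, rfl⟩
    have hlt : v₀ < v₁ := by
      rw [hv₁]
      exact lt_min (lt_min hy hv1.2) (by linarith)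
    have hv₁1 : v₁ ≤ 1 := by rw [hv₁]; exact (min_le_left _ _).trans (min_le_right _ _)
    have hv₁y : v₁ ≤ y := by rw [hv₁]; exact (min_le_left _ _).trans (min_le_left _ _)
    have hv₁ε : v₁ ≤ v₀ + ε / 2 := by rw [hv₁]; exact min_le_right _ _
    have hgood : ∀ v ∈ Icc v₀ v₁, g ((v : ℂ) * τ) i₁ ≠ 0 ∧
        ∀ i, ‖g ((v : ℂ) * τ) i / g ((v : ℂ) * τ) i₁ - u i‖ < r := by
      intro v hv
      refine hball ?_
      rw [Real.dist_eq, abs_of_nonneg (by linarith [hv.1])]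
      linarith [hv.2]
    have hsub : ∀ v ∈ Icc v₀ v₁, v ∈ Icc (0 : ℝ) 1 := fun v hv =>
      ⟨hv1.1.trans hv.1, hv.2.trans hv₁1⟩
    refine ⟨v₁, ?_, hlt, hv₁y⟩
    rw [hAiff v₁ (hgood v₁ ⟨hlt.le, le_rfl⟩).1]
    intro i
    have hf : ∀ v ∈ Icc v₀ v₁, HasDerivAt (fun v : ℝ => g ((v : ℂ) * τ) i / g ((v : ℂ) * τ) i₁ - u i)
        (deriv (fun t => g t i / g t i₁) ((v : ℂ) * τ) * τ) v := by
      intro v hv
      have e1 : HasDerivAt (fun v : ℝ => (v : ℂ) * τ) τ v := by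
        have := (Complex.ofRealCLM.hasDerivAt (x := v)).mul_const τ
        simpa using this
      have e2 := hdiff _ (hmem v (hsub v hv)) (hgood v hv).1 i
      exact (HasDerivAt.comp v e2 e1).sub_const (u i)
    refine image_norm_le_of_norm_deriv_right_le_deriv_boundary' (a := v₀) (b := v₁)
      (f := fun v : ℝ => g ((v : ℂ) * τ) i / g ((v : ℂ) * τ) i₁ - u i)
      (f' := fun v : ℝ => deriv (fun t => g t i / g t i₁) ((v : ℂ) * τ) * τ)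
      (B := B) (B' := fun v => C * (‖τ‖ / (1 - (v * ‖τ‖) ^ 2)))
      (fun v hv => (hf v hv).continuousAt.continuousWithinAt)
      (fun v hv => (hf v ⟨hv.1, hv.2.le⟩).hasDerivWithinAt) (hle i)
      (fun v hv => (hBd v (hsub v hv)).continuousAt.continuousWithinAt)
      (fun v hv => (hBd v (hsub v ⟨hv.1, hv.2.le⟩)).hasDerivWithinAt)
      (fun v hv => ?_) ⟨hlt.le, le_rfl⟩
    have hvI' := hsub v ⟨hv.1, hv.2.le⟩
    have e1 := hder _ (hmem v hvI') (hgood v ⟨hv.1, hv.2.le⟩).1 (hgood v ⟨hv.1, hv.2.le⟩).2 i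
    rw [norm_mul]
    have e2 : ‖(v : ℂ) * τ‖ = v * ‖τ‖ := by
      rw [norm_mul, Complex.norm_real, Real.norm_of_nonneg hvI'.1]
    rw [e2] at e1
    calc ‖deriv (fun t => g t i / g t i₁) ((v : ℂ) * τ)‖ * ‖τ‖ ≤
        C / (1 - (v * ‖τ‖) ^ 2) * ‖τ‖ := mul_le_mul_of_nonneg_right e1 hτ0
      _ = C * (‖τ‖ / (1 - (v * ‖τ‖) ^ 2)) := by ring
  have hall := hclosed.Icc_subset_of_forall_exists_gt hzero hstep
  have h1A := hall (show (1 : ℝ) ∈ Icc (0 : ℝ) 1 from ⟨zero_le_one, le_rfl⟩)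
  have hne1 := hAne 1 ⟨h1A, zero_le_one, le_rfl⟩
  have h2 := (hAiff 1 hne1).1 h1A
  rw [hB1] at h2
  simp only [Complex.ofReal_one, one_mul] at hne1 h2
  exact ⟨hne1, h2⟩

end Pool.Agent.Q151.KO
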